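import Pool.Agent.MP_1246c0_nt.H12.SpecN

/-! Equidistribution of the matrices of symbols. -/

namespace Pool.Agent.MP_1246c0_nt.H12

open Finset

namespace EQ

section Gen

variable {ι : Type} [Fintype ι] [DecidableEq ι]

theorem ts_congr {T : ℕ} {W : ι → ℕ → ℝ} {Ψ Ψ' : (ι → ℕ) → ℝ}
    (h : ∀ p, Function.Injective p → (∀ x, p x ≤ T) → (∀ x, W x (p x) ≠ 0) → Ψ p = Ψ' p) :
    TS0 T W Ψ = TS0 T W Ψ' := by
  unfold TS0
  refine sum_congr rfl fun p hp => ?_
  split_ifs with h1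
  · by_cases h2 : ∀ x, W x (p x) ≠ 0
    · rw [h p h1.1 (fun x => Nat.lt_succ_iff.1 (mem_range.1 (Fintype.mem_piFinset.1 hp x))) h2]
    · push Not at h2
      obtain ⟨x, hx⟩ := h2
      rw [prod_eq_zero (mem_univ x) hx, zero_mul, zero_mul]
  · rfl

theorem ts_split {O : Type} [Fintype O] [DecidableEq O] (od : ℕ → O) (T : ℕ) (W : ι → ℕ → ℝ)
    (Ψ : (ι → ℕ) → ℝ) :
    TS0 T W Ψ = ∑ o : ι → O, TS0 T (fun x p => if od p = o x then W x p else 0) Ψ := by
  unfold TS0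
  rw [sum_comm]
  refine sum_congr rfl fun p _ => ?_
  split_ifs
  · rw [← sum_mul, Fintype.sum_eq_single (fun x => od (p x))]
    · simp
    · intro o ho
      obtain ⟨x, hx⟩ := Function.ne_iff.1 ho
      exact prod_eq_zero (mem_univ x) (if_neg (Ne.symm hx))
  · simp

theorem ex_shift {M : Type} [AddCommGroup M] (A : AddSubgroup M) (f : M → ℝ) {h : M}
    (hh : h ∈ A) : Ex A (fun x => f (h + x)) = Ex A f := by
  unfold Ex
  rw [← finsum_comp_equiv (Equiv.addLeft (⟨h, hh⟩ : A)) (f := fun x : A => f x)]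
  rfl

end Gen

section Lin

variable {Λ σ κ : Type} [CommRing Λ] [Fintype κ] [DecidableEq κ] [Zero κ] {m : ℕ}

/-- the index set of the bits -/
abbrev Ix (m : ℕ) (κ : Type) : Type := Option (Fin m) × Option (Fin m) × κ

/-- the positions in use -/
def Kp (A : Finset (Fin m)) : Option (Fin m) → Option (Fin m) → κ → Prop
  | _, none, _ => False
  | none, some j, k => j ∈ A ∧ k = 0
  | some i, some j, k => j ∈ A ∧ (i ∈ A ∧ i < j ∨ i ∉ A ∧ k = 0)

open Classical in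
/-- the set of the positions in use -/
noncomputable def KK (A : Finset (Fin m)) : Finset (Ix m κ) :=
  univ.filter fun q => Kp A q.1 q.2.1 q.2.2

omit [DecidableEq κ] in
theorem mem_KK {A : Finset (Fin m)} {x y : Option (Fin m)} {k : κ} :
    (x, y, k) ∈ KK A ↔ Kp A x y k := by simp [KK]

/-- the bits of a pair -/
def ro (ρ : Ix m κ → F2) (i j : Fin m) : κ → F2 := fun k => ρ (some i, some j, k)

/-- the sum of the bits at an index -/
def dg (ρ : Ix m κ → F2) (i : Fin m) : F2 := ∑ x, ∑ k, (ρ (x, some i, k) + ρ (some i, x, k))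

/-- the entries -/
def En (c : (κ → F2) →+ Λ) (st : Λ →+* Λ) (A : Finset (Fin m)) (ρ : Ix m κ → F2) (i j : Fin m) :
    Λ :=
  if i ∈ A ∧ j ∈ A then
    if i < j then c (ro ρ i j) else if j < i then st (c (ro ρ j i)) else c (Pi.single 0 (dg ρ i))
  else 0

/-- the matrix attached to a vector of bits -/
def Lm (σ : Type) (c : (κ → F2) →+ Λ) (st : Λ →+* Λ) (A : Finset (Fin m)) :
    (Ix m κ → F2) →+ Matrix (σ ⊕ Fin m) (σ ⊕ Fin m) Λ :=
  AddMonoidHom.mk' (fun ρ => Matrix.fromBlocks 0 0 0 (Matrix.of (En c st A ρ))) (by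
    intro ρ ρ'
    have h1 : ∀ i j, ro (ρ + ρ') i j = ro ρ i j + ro ρ' i j := fun _ _ => rfl
    have h2 : ∀ i, dg (ρ + ρ') i = dg ρ i + dg ρ' i := fun i => by
      simp only [dg, Pi.add_apply, sum_add_distrib]
      abel
    ext (x | i) (y | j)
    · simp
    · simp
    · simp
    · simp only [Matrix.add_apply, Matrix.fromBlocks_apply₂₂, Matrix.of_apply, En, h1, h2,
        Pi.single_add, map_add]
      split_ifs <;> simp)

variable {c : (κ → F2) →+ Λ} {st : Λ →+* Λ} {A : Finset (Fin m)} {B : Finset (σ ⊕ Fin m)}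

theorem Lm_l (ρ : Ix m κ → F2) (l : σ) (y : σ ⊕ Fin m) : Lm σ c st A ρ (.inl l) y = 0 := by
  cases y <;> rfl

theorem Lm_r (ρ : Ix m κ → F2) (l : σ) (y : σ ⊕ Fin m) : Lm σ c st A ρ y (.inl l) = 0 := by
  cases y <;> rfl

theorem Lm_rr (ρ : Ix m κ → F2) (i j : Fin m) :
    Lm σ c st A ρ (.inr i) (.inr j) = En c st A ρ i j := rfl

theorem Lm_mem (h1 : ∀ h, st (st h) = h) (h2 : ∀ x : F2, c (Pi.single 0 x) = (x.val : Λ))
    (hB : ∀ i, Sum.inr i ∈ B ↔ i ∈ A) (ρ : Ix m κ → F2) : Lm σ c st A ρ ∈ Hs st B B := by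
  refine ⟨?_, ?_, ?_⟩
  · rintro (x | i) (y | j)
    · rw [Lm_l, Lm_l, map_zero]
    · rw [Lm_l, Lm_r, map_zero]
    · rw [Lm_l, Lm_r, map_zero]
    · rw [Lm_rr, Lm_rr, En, En]
      by_cases h : i ∈ A ∧ j ∈ A
      · rw [if_pos h, if_pos h.symm]
        rcases lt_trichotomy i j with e | rfl | e
        · rw [if_neg e.not_gt, if_pos e, if_pos e]
        · rw [if_neg (lt_irrefl i), if_neg (lt_irrefl i), h2, map_natCast]
        · rw [if_pos e, if_neg e.not_gt, if_pos e, h1]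
      · rw [if_neg h, if_neg fun h' => h h'.symm, map_zero]
  · rintro (x | i)
    · exact ⟨0, by rw [Lm_l, Int.cast_zero]⟩
    · rw [Lm_rr, En, if_neg (lt_irrefl i), if_neg (lt_irrefl i), h2]
      split_ifs
      · exact ⟨_, (Int.cast_natCast _).symm⟩
      · exact ⟨0, Int.cast_zero.symm⟩
  · rintro (x | i) (y | j) h
    · rfl
    · rfl
    · rfl
    · exact if_neg fun h' => h ⟨(hB i).2 h'.1, (hB j).2 h'.2, Or.inl ((hB i).2 h'.1)⟩

theorem Lm_map (h0 : (2 : Λ) = 0) (h1 : ∀ h, st (st h) = h)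
    (h2 : ∀ x : F2, c (Pi.single 0 x) = (x.val : Λ)) (h3 : Function.Surjective c)
    (hB0 : ∀ l, Sum.inl l ∉ B) (hB : ∀ i, Sum.inr i ∈ B ↔ i ∈ A) :
    (Sup (KK A)).map (Lm σ c st A) = Hs st B B := by
  classical
  refine le_antisymm (by rintro _ ⟨ρ, -, rfl⟩; exact Lm_mem h1 h2 hB ρ) fun H ⟨k1, k2, k3⟩ => ?_
  choose f hf using h3
  have h4 : ∀ l, ∃ t : F2, H l l = (t.val : Λ) := fun l => by
    obtain ⟨n, hn⟩ := k2 l
    obtain ⟨k, rfl | rfl⟩ := Int.even_or_odd' n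
    · exact ⟨0, by simp [hn, h0]⟩
    · exact ⟨1, by simp [hn, h0, ZMod.val_one]⟩
  choose t ht using h4
  let ρ : Ix m κ → F2 := fun q => if Kp A q.1 q.2.1 q.2.2 then
    q.1.elim 0 fun i => q.2.1.elim 0 fun j => f (H (.inr i) (.inr j)) q.2.2 else 0
  let ρ' : Ix m κ → F2 := fun q => if Kp A q.1 q.2.1 q.2.2 then
    q.1.elim (q.2.1.elim 0 fun j => t (.inr j) - dg ρ j) fun _ => 0 else 0
  have e1 : ∀ i ∈ A, ∀ j ∈ A, i < j → c (ro (ρ + ρ') i j) = H (.inr i) (.inr j) := by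
    intro i hi j hj h
    rw [← hf (H _ _)]
    congr 1
    funext k
    simp [ro, ρ, ρ', Kp, hi, hj, h]
  have e2 : ∀ i ∈ A, dg (ρ + ρ') i = t (.inr i) := by
    intro i hi
    have : dg ρ' i = t (.inr i) - dg ρ i := by
      rw [dg, Fintype.sum_option]
      simp [ρ', Kp, hi]
    rw [eq_sub_iff_add_eq'.1 this |>.symm]
    simp only [dg, Pi.add_apply, sum_add_distrib]
    abel
  refine ⟨ρ + ρ', fun ⟨x, y, k⟩ hq => by simp [ρ, ρ', mem_KK.not.1 hq], ?_⟩
  ext (x | i) (y | j)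
  · rw [Lm_l, k3 _ _ fun h => hB0 _ h.1]
  · rw [Lm_l, k3 _ _ fun h => hB0 _ h.1]
  · rw [Lm_r, k3 _ _ fun h => hB0 _ h.2.1]
  · rw [Lm_rr, En]
    split_ifs with h a b
    · exact e1 i h.1 j h.2 a
    · rw [e1 j h.2 i h.1 b, ← k1]
    · obtain rfl : i = j := le_antisymm (not_lt.1 b) (not_lt.1 a)
      rw [e2 i h.1, h2, ht]
    · exact (k3 _ _ fun h' => h ⟨(hB i).1 h'.1, (hB j).1 h'.2.1⟩).symm

end Lin

section Ar

variable {n m a : ℕ} {D : Dat n} {Sg : Finset ℕ} {A : Finset (Fin m)} {p p' : Option (Fin m) → ℕ}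

theorem lg_self (l : ℕ) : lg l l = 0 := by simp [lg, qr]

/-- the labelling given by a tuple -/
abbrev pr (Sg : Finset ℕ) (p : Option (Fin m) → ℕ) : Sg ⊕ Fin m → ℕ := prs Sg fun i => p (some i)

/-- admissible tuples -/
structure Adm (Sg : Finset ℕ) (a : ℕ) (A : Finset (Fin m)) (p : Option (Fin m) → ℕ) : Prop where
  inj : Function.Injective p
  gd : ∀ x, Gd 0 (p x)
  ns : ∀ x, p x ∉ Sg
  act : ∀ i, i ∈ A ↔ a ≤ lev (p (some i))

/-- two primes with the same own data -/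
structure Same (D : Dat n) (Sg : Finset ℕ) (q q' : ℕ) : Prop where
  lv : lev q = lev q'
  ep : eps q = eps q'
  cc : D.cc q = D.cc q'
  ow : D.ow q = D.ow q'
  r1 : ∀ l : Sg, D.rr q l = D.rr q' l
  r2 : ∀ l : Sg, D.rr l q = D.rr l q'
  l1 : ∀ l : Sg, lg q l = lg q' l
  l2 : ∀ l : Sg, lg l q = lg l q'

/-- the symbols in use -/
noncomputable def bb (D : Dat n) (A : Finset (Fin m)) (x _y : Option (Fin m)) (q q' : ℕ)
    (k : ZMod (2 ^ n)) : F2 := x.elim (lg q q') fun i => if i ∈ A then D.rr q q' k else lg q q'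

theorem Adm.ne (h : Adm Sg a A p) (x : Option (Fin m)) (l : Sg) : p x ≠ l := fun e =>
  h.ns x (e ▸ l.2)

theorem Adm.pinj (h : Adm Sg a A p) : Function.Injective (pr Sg p) := by
  rintro (x | i) (y | j) e
  · exact congrArg _ (Subtype.ext e)
  · exact absurd e.symm (h.ne _ _)
  · exact absurd e (h.ne _ _)
  · exact congrArg _ (Option.some_injective _ (h.inj e))

theorem Adm.sum (h : Adm Sg a A p) (l : ℕ) : ∑ c ∈ (SP (pr Sg p) (p none)).erase l, lg c l =
    ∑ l' : Sg, lg l' l + ∑ x, lg (p x) l := by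
  rw [sum_erase (f := fun c => lg c l) _ (lg_self l), SP, sum_insert, sum_image h.pinj.injOn, Fintype.sum_sum_type,
    Fintype.sum_option, add_left_comm]
  · rfl
  · intro e
    obtain ⟨x | i, -, e⟩ := mem_image.1 e
    · exact h.ne _ _ e.symm
    · exact Option.some_ne_none _ (h.inj e)

theorem own {β : Type} (f : ℕ → β) (hf : ∀ x, f (p x) = f (p' x)) :
    (fun i => f (pr Sg p i)) = fun i => f (pr Sg p' i) := by
  funext i
  rcases i with x | i
  exacts [rfl, hf _]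

theorem crs_eq (h : Adm Sg a A p) (h' : Adm Sg a A p') (s : ∀ x, Same D Sg (p x) (p' x)) :
    crs (BB Sg m) (Sm0 (pr Sg p) (p none)) = crs (BB Sg m) (Sm0 (pr Sg p') (p' none)) := by
  ext (x | i) (y | j)
  · simp only [crs, Sm0, R0, h.sum, h'.sum]
    simp only [prs, Sum.elim_inl, fun x => (s x).l1]
  · simp [crs, Sm0, R0, BB, prs, (h.ne _ _).symm, (h'.ne _ _).symm, (s _).l2]
  · simp [crs, Sm0, R0, BB, prs, h.ne _ _, h'.ne _ _, (s _).l1]
  · simp [crs, BB]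

theorem Adm.gdn (h : Adm Sg a A p) (hn : n ≤ a) {i : Fin m} (hi : i ∈ A) : Gd n (p (some i)) :=
  ⟨(h.gd _).1, (h.gd _).2.1, hn.trans ((h.act i).1 hi)⟩

theorem Adm.dg_eq (h : Adm Sg a A p) (hQ : SQR) (hT : SDAT) (hn : n ≤ a) {i : Fin m}
    (hi : i ∈ A) : dg (rho (KK A) (bb D A) p) i = ∑ x, lg (p x) (p (some i)) +
      ∑ j, if j ∈ A ∧ i < j then eps (p (some i)) * eps (p (some j)) else 0 := by
  rw [dg, Fintype.sum_option, Fintype.sum_option, add_assoc, ← sum_add_distrib]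
  congr 1
  · simp [rho, mem_KK, Kp, bb, hi]
  refine sum_congr rfl fun j _ => ?_
  by_cases hj : j ∈ A
  swap
  · simp [rho, mem_KK, Kp, bb, hi, hj]
  rcases lt_trichotomy i j with e | rfl | e
  · have h1 : p (some i) ≠ p (some j) := fun e' => e.ne (Option.some_injective _ (h.inj e'))
    have h2 := hQ.rcp _ _ (h.gd _) (h.gd _) h1
    simp only [rho, mem_KK, Kp, bb, hi, hj, e, e.not_gt, Option.elim_some, and_true, true_and,
      not_true, false_and, or_false, if_true, if_false, zero_add,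
      hT.ar n D _ _ (h.gdn hn hi) (h.gdn hn hj) h1, ← h2]
    rw [add_left_comm, CharTwo.add_self_eq_zero, add_zero]
  · simp [rho, mem_KK, Kp, hi, lg_self]
  · have h1 : p (some j) ≠ p (some i) := fun e' => e.ne (Option.some_injective _ (h.inj e'))
    simp [rho, mem_KK, Kp, bb, hi, hj, e, e.not_gt, hT.ar n D _ _ (h.gdn hn hj) (h.gdn hn hi) h1]

variable {Λ : Type} [CommRing Λ] {st : Λ →+* Λ} {au : Λ →+* F2} {g : Λ} {c : Co n →+ Λ}

theorem Adm.ent (h : Adm Sg a A p) (hQ : SQR) (hT : SDAT) (hS : SSYM) (hn : n ≤ a)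
    (hG : LG st au g (2 ^ n)) (hc : ∀ f, cv g f = c f) (i j : Fin m) :
    H12.act a (fun i => lev (pr Sg p i)) (SmN D g (pr Sg p) (p none)) (.inr i) (.inr j) -
      En c st A (rho (KK A) (bb D A) p) i j =
    if i ∈ A ∧ j ∈ A then if i < j then 0 else
      if j < i then st (c (D.cc (p (some i)))) * c (D.cc (p (some j))) else
        c (D.ow (p (some i)) + Pi.single 0 (∑ l' : Sg, lg l' (p (some i)) -
          ∑ j, if j ∈ A ∧ i < j then eps (p (some i)) * eps (p (some j)) else 0))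
    else 0 := by
  have e1 : ∀ i ∈ A, ∀ j ∈ A, i < j → c (ro (rho (KK A) (bb D A) p) i j) =
      SmN D g (pr Sg p) (p none) (.inr i) (.inr j) := by
    intro i hi j hj e
    rw [SmN, hc, Dat.Rc, if_neg fun e' => e.ne (Sum.inr_injective (h.pinj e'))]
    congr 1
    funext k
    simp [ro, rho, mem_KK, Kp, bb, hi, hj, e, prs]
  rw [H12.act, En]
  by_cases hij : i ∈ A ∧ j ∈ A
  swap
  · rw [if_neg hij, if_neg hij, if_neg fun e => hij ⟨(h.act i).2 e.1, (h.act j).2 e.2⟩, sub_zero]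
  rw [if_pos hij, if_pos hij, if_pos ⟨(h.act i).1 hij.1, (h.act j).1 hij.2⟩]
  split_ifs with e e'
  · rw [e1 i hij.1 j hij.2 e, sub_self]
  · have h1 := hS.sym n D Λ _ st au g (pr Sg p) (p none) {.inr i, .inr j} hG h.pinj (by
      simpa using ⟨h.gdn hn hij.1, h.gdn hn hij.2⟩) (.inr i) (by simp) (.inr j) (by simp)
    rw [if_neg fun e'' => e'.ne' (Sum.inr_injective e''), add_zero] at h1
    rw [e1 j hij.2 i hij.1 e', ← hc, ← hc]
    refine Eq.trans ?_ h1
    linear_combination -st (SmN D g (pr Sg p) (p none) (.inr j) (.inr i)) * hG.lr.two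
  · obtain rfl : i = j := le_antisymm (not_lt.1 e') (not_lt.1 e)
    rw [SmN, hc, Dat.Rc, if_pos rfl, h.sum, h.dg_eq hQ hT hn hij.1, ← map_sub, add_sub_assoc,
      ← Pi.single_sub]
    congr 3
    simp only [prs, Sum.elim_inr]
    ring

theorem act_eq (h : Adm Sg a A p) (h' : Adm Sg a A p') (s : ∀ x, Same D Sg (p x) (p' x))
    (hQ : SQR) (hT : SDAT) (hS : SSYM) (hn : n ≤ a) (hG : LG st au g (2 ^ n))
    (hc : ∀ f, cv g f = c f) :
    act a (fun i => lev (pr Sg p i)) (SmN D g (pr Sg p) (p none)) -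
      Lm Sg c st A (rho (KK A) (bb D A) p) =
    act a (fun i => lev (pr Sg p' i)) (SmN D g (pr Sg p') (p' none)) -
      Lm Sg c st A (rho (KK A) (bb D A) p') := by
  ext (x | i) (y | j)
  · simp only [Matrix.sub_apply, Lm_l, act, SmN, Dat.Rc, h.sum, h'.sum]
    simp only [prs, Sum.elim_inl, fun x => (s x).l1]
  · simp [Lm_l, act, SmN, Dat.Rc, prs, (h.ne _ _).symm, (h'.ne _ _).symm, (s _).r2, (s _).lv]
  · simp [Lm_r, act, SmN, Dat.Rc, prs, h.ne _ _, h'.ne _ _, (s _).r1, (s _).lv]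
  · rw [Matrix.sub_apply, Matrix.sub_apply, Lm_rr, Lm_rr, h.ent hQ hT hS hn hG hc,
      h'.ent hQ hT hS hn hG hc]
    simp only [fun x => (s x).cc, fun x => (s x).ow, fun x => (s x).l2, fun x => (s x).ep]

end Ar

theorem num (N z m T : ℕ) :
    (((Nat.log 2 T + 1) * (2 * (2 ^ N * (2 ^ N * (2 ^ N * (2 ^ N * (2 * 2))) ^ z)))) ^ (m + 1) : ℕ) *
      (2 ^ ((m + 1) * ((m + 1) * N)) * (Real.log T + 2) ^ (m + 1)) ≤ EE N z m T := by
  have h0 := Real.log_natCast_nonneg T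
  have h1 : (Nat.log 2 T : ℝ) ≤ 2 * Real.log T := by
    have h2 := Real.natLog_le_logb T 2
    have h3 := Real.log_two_gt_d9
    rw [Real.logb, le_div_iff₀ (by positivity), Nat.cast_ofNat] at h2
    nlinarith [Nat.cast_nonneg (α := ℝ) (Nat.log 2 T)]
  rw [EE, mul_comm (m + 1), pow_mul, ← mul_pow]
  push_cast
  rw [← mul_pow]
  refine pow_le_pow_left₀ (by positivity) ?_ _
  calc _ = ((Nat.log 2 T + 1) * (Real.log T + 2)) *
        (2 : ℝ) ^ (1 + N + N + (N + N + 2) * z + (m + 1) * N) := by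
        rw [show (4 : ℝ) = 2 ^ 2 by norm_num, mul_pow, mul_pow, ← pow_mul _ 2]
        ring
    _ ≤ _ := mul_le_mul (by nlinarith) (pow_le_pow_right₀ one_le_two (by nlinarith))
        (by positivity) (by positivity)

end EQ

open EQ in
theorem rowEQ : OfEQ := by
  intro hA hD hL hQ hT hS hU n D Λ _ _ st au g Sg m T Y a w w' δ Φ hG _ hn hw hw' hδ hB hB0 hΦ
  classical
  let c : Co n →+ Λ := AddMonoidHom.mk' (cv g) fun f f' => hL.add Λ _ g f f' hG.lr.two
  let od : ℕ → Fin (Nat.log 2 T + 1) × F2 × Co n × Co n × (Sg → Co n × Co n × F2 × F2) :=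
    fun q => (⟨min (lev q) (Nat.log 2 T), Nat.lt_succ_of_le (min_le_right _ _)⟩, eps q, D.cc q,
      D.ow q, fun l => (D.rr q l, D.rr l q, lg q l, lg l q))
  unfold TS
  rw [ts_split od]
  refine (abs_sum_le_sum_abs _ _).trans ((sum_le_card_nsmul _ _ (δ * T *
    (2 ^ ((m + 1) * ((m + 1) * 2 ^ n)) * (Real.log T + 2) ^ (m + 1))) fun o _ => ?_).trans ?_)
  swap
  · rw [nsmul_eq_mul, mul_left_comm]
    refine mul_le_mul_of_nonneg_left (le_trans (le_of_eq ?_) (num (2 ^ n) Sg.card m T))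
      (by positivity)
    simp only [card_univ, Fintype.card_fun, Fintype.card_prod, Fintype.card_fin, ZMod.card,
      Fintype.card_option, Fintype.card_coe]
  let A : Finset (Fin m) := univ.filter fun i => a ≤ (o (some i)).1
  set W : Option (Fin m) → ℕ → ℝ := fun x q =>
    if od q = o x then (x.elim w' fun _ => w) q else 0 with hWd
  have h0 : ∀ x : Option (Fin m), Wt Sg Y (x.elim w' fun _ => w) := by
    rintro (_ | _)
    exacts [hw', hw]
  have h1 : ∀ x q, W x q ≠ 0 → od q = o x ∧ Gd 0 q ∧ Y < q ∧ q ∉ Sg := fun x q h =>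
    ⟨by_contra fun e => h (if_neg e), (h0 x q).2.2 fun e => h (by simp only [hWd, e, ite_self])⟩
  have h2 : ∀ x q, |W x q| ≤ 1 := fun x q => by
    simp only [hWd]
    split_ifs
    · exact abs_le.2 ⟨by linarith [(h0 x q).1], (h0 x q).2.1⟩
    · simp
  have h3 : ∀ p : Option (Fin m) → ℕ, (∀ x, p x ≤ T) → (∀ x, W x (p x) ≠ 0) → ∀ x,
      lev (p x) = (o x).1 := fun p k1 k2 x => by
    obtain ⟨e, k3, -⟩ := h1 x _ (k2 x)
    rw [← e]
    exact (min_eq_left (Nat.le_log_of_pow_le one_lt_two ((hD.cls _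
      (k3.1.eq_two_or_odd.resolve_left k3.2.1) k3.1.one_lt).2.1.trans (k1 x)))).symm
  have h4 : ∀ p : Option (Fin m) → ℕ, Function.Injective p → (∀ x, p x ≤ T) →
      (∀ x, W x (p x) ≠ 0) → Adm Sg a A p := fun p k0 k1 k2 =>
    ⟨k0, fun x => (h1 x _ (k2 x)).2.1, fun x => (h1 x _ (k2 x)).2.2.2, fun i => by
      simp [A, h3 p k1 k2]⟩
  have h5 : ∀ i ∈ A, ∀ q, W (some i) q ≠ 0 → Gd n q ∧ Y < q := fun i hi q hq => by
    obtain ⟨e, k3, k4, -⟩ := h1 _ _ hq
    have := (mem_filter.1 hi).2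
    rw [← e] at this
    exact ⟨⟨k3.1, k3.2.1, hn.trans (this.trans (min_le_left _ _))⟩, k4⟩
  refine le_trans (b := 2 ^ (KK (κ := ZMod (2 ^ n)) A).card * δ * T *
    (Real.log T + 2) ^ Fintype.card (Option (Fin m))) ?_ ?_
  swap
  · rw [Fintype.card_option, Fintype.card_fin, mul_assoc (2 ^ _), mul_comm (2 ^ _), mul_assoc]
    have := Real.log_natCast_nonneg T
    gcongr
    · norm_num
    · simpa using card_le_univ (KK (κ := ZMod (2 ^ n)) A)
  have key : ∀ Ψ : (Option (Fin m) → ℕ) → ℝ, (∃ Φ' : (Ix m (ZMod (2 ^ n)) → F2) → ℝ,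
      (∀ ρ, |Φ' ρ| ≤ 1) ∧ ∀ p, Function.Injective p → (∀ x, p x ≤ T) → (∀ x, W x (p x) ≠ 0) →
      Ψ p = Φ' (rho (KK A) (bb D A) p) - Ex (Sup (KK A)) Φ') → |TS0 T W Ψ| ≤
      2 ^ (KK (κ := ZMod (2 ^ n)) A).card * δ * T *
        (Real.log T + 2) ^ Fintype.card (Option (Fin m)) := by
    rintro Ψ ⟨Φ', k1, k2⟩
    rw [ts_congr k2]
    refine hU _ _ (KK A) (bb D A) W T δ Φ' hδ h2
      (fun x => by_contra fun h => Nat.not_prime_zero (h1 x 0 h).2.1.1) k1 ?_ ?_
    · rintro (_ | i) (_ | j) k h <;> simp only [mem_KK, Kp] at h ⊢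
      · simp
      · refine ⟨?_, fun k' h' => ?_⟩
        · rintro ⟨rfl⟩
          simp [h.1] at h
        · simp only [h.1, h'.1, true_and, not_true, false_and, or_false] at h h'
          exact h.not_gt h'
    · intro x y s hs hK u v hu hv T' hT'
      have e1 : ∀ q, u q ≠ 0 → W x q ≠ 0 := fun q h e => h (by simpa [e] using hu q)
      have e2 : ∀ q, v q ≠ 0 → W y q ≠ 0 := fun q h e => h (by simpa [e] using hv q)
      have e3 := fun q => (hu q).trans (h2 x q)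
      have e4 := fun q => (hv q).trans (h2 y q)
      obtain ⟨k, hk⟩ := hs
      by_cases hx : ∃ i ∈ A, x = some i
      · obtain ⟨i, hi, rfl⟩ := hx
        rcases y with _ | j
        · exact (mem_KK.1 (hK k hk)).elim
        simpa only [bb, Option.elim_some, if_pos hi] using hB s ⟨k, hk⟩ u v e3 e4
          (fun q h => h5 i hi q (e1 q h)) (fun q h => h5 j (mem_KK.1 (hK k hk)).1 q (e2 q h)) T' hT'
      · have e5 : ∀ k ∈ s, k = 0 := fun k hk => by
          have := mem_KK.1 (hK k hk)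
          rcases x with _ | i <;> rcases y with _ | j
          exacts [this.elim, this.2, this.elim,
            (this.2.resolve_left fun h => hx ⟨i, h.1, rfl⟩).2]
        have e6 : ∀ q q', bb D A x y q q' 0 = lg q q' := fun q q' => by
          rcases x with _ | i
          exacts [rfl, if_neg fun h => hx ⟨i, h, rfl⟩]
        obtain rfl : s = {0} := eq_singleton_iff_nonempty_unique_mem.2 ⟨⟨k, hk⟩, e5⟩
        simpa only [sum_singleton, e6] using hB0 {()} (singleton_nonempty _) u v e3 e4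
          (fun q h => ⟨(h1 _ q (e1 q h)).2.1, (h1 _ q (e1 q h)).2.2.1⟩)
          (fun q h => ⟨(h1 _ q (e2 q h)).2.1, (h1 _ q (e2 q h)).2.2.1⟩) T' hT'
  refine key _ ?_
  by_cases hp : ∃ p : Option (Fin m) → ℕ, Function.Injective p ∧ (∀ x, p x ≤ T) ∧
    ∀ x, W x (p x) ≠ 0
  swap
  · exact ⟨fun _ => 0, by simp, fun p k0 k1 k2 => absurd ⟨p, k0, k1, k2⟩ hp⟩
  obtain ⟨p', l0, l1, l2⟩ := hp
  let f : Matrix (Sg ⊕ Fin m) (Sg ⊕ Fin m) Λ → ℝ := Φ (fun i => lev (pr Sg p' i))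
    (fun i => eps (pr Sg p' i)) (crs (BB Sg m) (Sm0 (pr Sg p') (p' none)))
    fun i => cv g (D.cc (pr Sg p' i))
  let C := act a (fun i => lev (pr Sg p' i)) (SmN D g (pr Sg p') (p' none)) -
    Lm Sg c st A (rho (KK A) (bb D A) p')
  refine ⟨fun ρ => f (C + Lm Sg c st A ρ), fun _ => hΦ _ _ _ _ _, fun p k0 k1 k2 => ?_⟩
  have s : ∀ x, Same D Sg (p x) (p' x) := fun x => by
    have e := (h1 x _ (k2 x)).1.trans (h1 x _ (l2 x)).1.symm
    simp only [od, Prod.mk.injEq, funext_iff (f := fun l : Sg => _)] at e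
    exact ⟨(h3 p k1 k2 x).trans (h3 p' l1 l2 x).symm, e.2.1, e.2.2.1, e.2.2.2.1,
      fun l => (e.2.2.2.2 l).1, fun l => (e.2.2.2.2 l).2.1, fun l => (e.2.2.2.2 l).2.2.1,
      fun l => (e.2.2.2.2 l).2.2.2⟩
  have hp := h4 p k0 k1 k2
  have hp' := h4 p' l0 l1 l2
  have e1 : f = Φ (fun i => lev (pr Sg p i)) (fun i => eps (pr Sg p i))
      (crs (BB Sg m) (Sm0 (pr Sg p) (p none))) fun i => cv g (D.cc (pr Sg p i)) := by
    rw [own lev fun x => (s x).lv, own eps fun x => (s x).ep, crs_eq hp hp' s,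
      own (fun q => cv g (D.cc q)) fun x => congrArg _ (s x).cc]
  have e2 := (eq_sub_iff_add_eq.1 (act_eq hp hp' s hQ hT hS hn hG (c := c) fun _ => rfl).symm)
  have e3 : ∀ i, Sum.inr i ∈ ((BB Sg m).filter fun i => a ≤ lev (pr Sg p i)) ↔ i ∈ A := fun i => by
    simp [BB, hp.act, prs]
  have e4 : ∀ x : F2, c (Pi.single 0 x) = (x.val : Λ) := hL.one Λ _ g
  rw [hA.map _ _ (Lm Sg c st A) _ fun H => f (C + H), Lm_map hG.lr.two hG.lr.inv e4 hG.bij.2
    (by simp [BB]) e3, ← ex_shift _ _ (Lm_mem hG.lr.inv e4 e3 (rho (KK A) (bb D A) p))]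
  simp only [← add_assoc, C, e2, e1]

end Pool.Agent.MP_1246c0_nt.H12
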