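import Pool.Agent.MP_1246c0_nt.H55.SpecC

/-! The local densities at three and the Euler product. -/

namespace Pool.Agent.MP_1246c0_nt.H75

open Filter Topology Finset H55

/-- the discriminant in explicit form -/
def dd (a b c d : ℤ) : ℤ :=
  (a * d - b * c) * (a * d - b * c) - 4 * (a * c - b * b) * (b * d - c * c)

/-- the condition modulo nine -/
def ck (t : ℕ) (x : ℕ × ℕ × ℕ × ℕ) : Bool :=
  decide (dd x.1 x.2.1 x.2.2.1 x.2.2.2 % 3 = t) && decide (dd x.1 x.2.1 x.2.2.1 x.2.2.2 % 9 ≠ 0) &&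
    (decide (t ≠ 1) || decide (x.1 = 0) || decide (x.2.2.2 = 0) ||
      decide ((x.1 + 3 * x.2.1 + 3 * x.2.2.1 + x.2.2.2) % 9 = 0) ||
      decide ((x.1 + 6 * x.2.1 + 3 * x.2.2.1 + 8 * x.2.2.2) % 9 = 0))

/-- the residues modulo nine that satisfy the condition -/
def S9 (t : ℕ) : Finset (ℕ × ℕ × ℕ × ℕ) :=
  (range 9 ×ˢ range 9 ×ˢ range 9 ×ˢ range 9).filter fun x => ck t x = true

theorem card0 : (S9 0).card = 1296 := by decide +kernel

theorem card1 : (S9 1).card = 648 := by decide +kernel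

theorem card2 : (S9 2).card = 1944 := by decide +kernel

theorem res (x : ℤ) (n : ℕ) (hn : 0 < n) : ∃ r : ℕ, r < n ∧ ∃ q : ℤ, x = n * q + r := by
  have h1 := Int.emod_nonneg x (b := n) (by omega)
  have h2 := Int.emod_lt_of_pos x (b := n) (by omega)
  refine ⟨(x % n).toNat, by omega, x / n, ?_⟩
  rw [Int.toNat_of_nonneg h1, Int.mul_ediv_add_emod]

theorem mem9 (t : ℕ) (f : Fm ℤ) (h : P0 t f) : ∃ x ∈ S9 t,
    (![(x.1 : ZMod 9), x.2.1, x.2.2.1, x.2.2.2] : Fm (ZMod 9)) = cst (ZMod 9) f := by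
  obtain ⟨a, ha, a', ea⟩ := res (f 0) 9 (by norm_num)
  obtain ⟨b, hb, b', eb⟩ := res (f 1) 9 (by norm_num)
  obtain ⟨c, hc, c', ec⟩ := res (f 2) 9 (by norm_num)
  obtain ⟨d, hd, d', ed⟩ := res (f 3) 9 (by norm_num)
  push_cast at ea eb ec ed
  refine ⟨(a, b, c, d), mem_filter.mpr ⟨by simp [ha, hb, hc, hd], ?_⟩, ?_⟩
  · obtain ⟨h1, h2, h3⟩ := h
    have m : ∀ (x q : ℤ) (r : ℕ), x = 9 * q + r → (r : ℤ) ≡ x [ZMOD 9] := fun x q r e =>
      Int.modEq_iff_dvd.mpr ⟨q, by rw [e]; ring⟩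
    have e : dd a b c d ≡ dsc f [ZMOD 9] := by
      have h0 := m _ _ _ ea
      have h1 := m _ _ _ eb
      have h2 := m _ _ _ ec
      have h3 := m _ _ _ ed
      unfold dd dsc
      rw [sq, sq, sq]
      gcongr
    unfold Int.ModEq at e
    simp only [ev] at h3
    simp only [ck, Bool.and_eq_true, Bool.or_eq_true, decide_eq_true_eq]
    refine ⟨⟨by omega, by omega⟩, ?_⟩
    by_cases ht : t = 1
    · have := h3 ht
      norm_num at this
      omega
    · simp [ht]
  · have h9 : (9 : ZMod 9) = 0 := rfl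
    funext i
    fin_cases i <;> simp [cst, ea, eb, ec, ed, h9]

theorem dens9 (t : ℕ) (ρ : ℝ) (h : ((S9 t).card : ℝ) ≤ ρ * (9 : ℕ) ^ 4) : Dens 9 (P0 t) ρ :=
  ⟨(S9 t).image fun x => (![(x.1 : ZMod 9), x.2.1, x.2.2.1, x.2.2.2] : Fm (ZMod 9)),
    fun f hf => mem_image.mpr (mem9 t f hf), le_trans (by exact_mod_cast card_image_le) h⟩

/-- the forms in standard position modulo `27` -/
def O0 : Finset (Fm (ZMod 27)) :=
  (range 9 ×ˢ range 9 ×ˢ ((range 27).filter fun d => d % 3 ≠ 0) ×ˢ ({1, -1} : Finset ℤ)).image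
    fun x => ![(x.2.2.2 : ZMod 27) * (3 * (x.2.2.1 - 3 * x.1)), 3 * x.1, 3 * x.2.1, x.2.2.1]

theorem card_O0 : O0.card ≤ 2916 := by
  refine card_image_le.trans ?_
  rw [card_product, card_product, card_product, card_range]
  have : ((range 27).filter fun d => d % 3 ≠ 0).card = 18 := by decide
  rw [this, card_pair (by norm_num)]

theorem mem27 (f : Fm ℤ) (h : Std f) : cst (ZMod 27) f ∈ O0 := by
  obtain ⟨⟨b, hb⟩, ⟨c, hc⟩, hd, ha⟩ := h
  obtain ⟨b1, hb1, b', eb⟩ := res b 9 (by norm_num)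
  obtain ⟨c1, hc1, c', ec⟩ := res c 9 (by norm_num)
  obtain ⟨d1, hd1, d', ed⟩ := res (f 3) 27 (by norm_num)
  push_cast at eb ec ed
  have h27 : (27 : ZMod 27) = 0 := rfl
  have e1 : ((f 1 : ℤ) : ZMod 27) = 3 * b1 := by
    rw [hb, eb]; push_cast; linear_combination (b' : ZMod 27) * h27
  have e2 : ((f 2 : ℤ) : ZMod 27) = 3 * c1 := by
    rw [hc, ec]; push_cast; linear_combination (c' : ZMod 27) * h27
  have e3 : ((f 3 : ℤ) : ZMod 27) = d1 := by
    rw [ed]; push_cast; linear_combination (d' : ZMod 27) * h27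
  obtain ⟨s, hs, e0⟩ : ∃ s ∈ ({1, -1} : Finset ℤ),
      ((f 0 : ℤ) : ZMod 27) = s * (3 * (d1 - 3 * b1)) := by
    rcases ha with ⟨k, hk⟩ | ⟨k, hk⟩
    · refine ⟨1, by simp, ?_⟩
      have := congrArg (Int.cast : ℤ → ZMod 27) hk
      push_cast at this ⊢
      rw [e1, e3] at this
      linear_combination -this - (k : ZMod 27) * h27
    · refine ⟨-1, by simp, ?_⟩
      have := congrArg (Int.cast : ℤ → ZMod 27) hk
      push_cast at this ⊢
      rw [e1, e3] at this
      linear_combination this + (k : ZMod 27) * h27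
  refine mem_image.mpr ⟨(b1, c1, d1, s), ?_, ?_⟩
  · simp only [mem_product, mem_range, mem_filter]
    exact ⟨hb1, hc1, ⟨hd1, by omega⟩, hs⟩
  · funext i
    fin_cases i <;> simp [cst, e0, e1, e2, e3]

/-- the translate of the set of standard forms -/
def O1 (p q r s : ℤ) : Finset (Fm (ZMod 27)) :=
  O0.image fun g => act g (p : ZMod 27) (q : ZMod 27) (r : ZMod 27) (s : ZMod 27)

theorem card_O1 (p q r s : ℤ) : (O1 p q r s).card ≤ 2916 := card_image_le.trans card_O0

theorem back (f : Fm ℤ) (p q r s p' q' r' s' : ℤ) (h : Std (act f p q r s))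
    (h1 : p * p' + q * r' = 1) (h2 : p * q' + q * s' = 0) (h3 : r * p' + s * r' = 0)
    (h4 : r * q' + s * s' = 1) :
    cst (ZMod 27) f ∈ O1 p' q' r' s' := by
  refine mem_image.mpr ⟨_, mem27 _ h, ?_⟩
  rw [← cst_act, act_act, h1, h2, h3, h4, act_one]

theorem rowLOC3 : RowLOC3 := by
  constructor
  · intro c hc
    apply dens9
    interval_cases c
    · rw [card0]; norm_num [r0]
    · rw [card1]; norm_num [r0]
    · rw [card2]; norm_num [r0]
  · refine ⟨O0 ∪ O1 0 1 (-1) 0 ∪ O1 1 0 (-1) 1 ∪ O1 1 0 1 1, fun f hf => ?_, ?_⟩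
    · simp only [mem_union]
      rcases hf with h | h | h | h
      · exact Or.inl (Or.inl (Or.inl (mem27 f h)))
      · exact Or.inl (Or.inl (Or.inr
          (back f _ _ _ _ _ _ _ _ h (by norm_num) (by norm_num) (by norm_num) (by norm_num))))
      · exact Or.inl (Or.inr
          (back f _ _ _ _ _ _ _ _ h (by norm_num) (by norm_num) (by norm_num) (by norm_num)))
      · exact Or.inr
          (back f _ _ _ _ _ _ _ _ h (by norm_num) (by norm_num) (by norm_num) (by norm_num))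
    · have key : ∀ A B C D : Finset (Fm (ZMod 27)), A.card ≤ 2916 → B.card ≤ 2916 →
          C.card ≤ 2916 → D.card ≤ 2916 →
          ((A ∪ B ∪ C ∪ D).card : ℝ) ≤ 16 / 729 * (27 : ℕ) ^ 4 := by
        intro A B C D h1 h2 h3 h4
        have e1 := card_union_le (A ∪ B ∪ C) D
        have e2 := card_union_le (A ∪ B) C
        have e3 := card_union_le A B
        have e4 : (A ∪ B ∪ C ∪ D).card ≤ 11664 := by omega
        calc _ ≤ ((11664 : ℕ) : ℝ) := by exact_mod_cast e4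
          _ = _ := by norm_num
      exact key _ _ _ _ card_O0 (card_O1 ..) (card_O1 ..) (card_O1 ..)

theorem euler : Tendsto (fun z : ℕ => Real.pi ^ 2 / 6 * (8 / 9 * PP z)) atTop (𝓝 1) := by
  have h1 := riemannZeta_eulerProduct (s := 2) (by norm_num)
  rw [riemannZeta_two] at h1
  have h2 : Tendsto (fun n : ℕ => ∏ p ∈ n.primesBelow, (1 - 1 / (p : ℝ) ^ 2)⁻¹) atTop
      (𝓝 (Real.pi ^ 2 / 6)) := by
    rw [← tendsto_ofReal_iff]
    push_cast
    refine h1.congr fun n => prod_congr rfl fun p _ => ?_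
    rw [Complex.cpow_neg, Complex.cpow_two, one_div]
  have hp : Real.pi ^ 2 / 6 ≠ 0 := by positivity
  have h3 := ((h2.inv₀ hp).const_mul (Real.pi ^ 2 / 6)).comp (tendsto_add_atTop_nat 1)
  rw [mul_inv_cancel₀ hp] at h3
  refine h3.congr' ?_
  filter_upwards [eventually_ge_atTop 3] with z hz
  have h4 : Pz z = (z + 1).primesBelow.erase 3 := by
    ext p
    simp only [Pz, mem_filter, mem_range, mem_erase, Nat.mem_primesBelow]
    tauto
  have h5 : 3 ∈ (z + 1).primesBelow := Nat.mem_primesBelow.mpr ⟨by omega, Nat.prime_three⟩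
  simp only [Function.comp]
  rw [prod_inv_distrib, inv_inv, PP, h4, ← mul_prod_erase _ _ h5]
  norm_num

theorem rowEUL : RowEUL := by
  intro η hη
  filter_upwards [euler.eventually (lt_mem_nhds (show (9 / 10 : ℝ) < 1 by norm_num)),
    euler.eventually (gt_mem_nhds (show (1 : ℝ) < 1 + η by linarith))] with z h1 h2
  refine ⟨?_, h2.le⟩
  by_contra h
  have h3 := Real.pi_lt_d2
  have h4 := Real.pi_pos
  have h5 : Real.pi ^ 2 ≤ 10 := by nlinarith
  nlinarith [sq_nonneg Real.pi]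

end Pool.Agent.MP_1246c0_nt.H75
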